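import Mathlib
import Pool.Agent.N709.UM.Stm

/-!
# Project UM, leaf INN
-/

set_option autoImplicit false

open Filter Topology

universe u

namespace Pool.Agent.N850.UMINN

open Pool.Agent.N709.UM

theorem inn : Pool.Agent.N709.UM.InnL.{u} := by
  intro G _ _ _ _ _ _ s hs hn
  letI : TopologicalSpace (Inn G) := s
  haveI : IsTopologicalGroup (Inn G) := hs
  have hn' : 𝓝 (1 : Inn G) = birk G := hn
  have hmem : ∀ (C : Set G), IsCompact C → ∀ U ∈ 𝓝 (1 : G),
      {f : Inn G | ∀ g ∈ C, (f : MulAut G) g * g⁻¹ ∈ U ∧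
        ((f⁻¹ : Inn G) : MulAut G) g * g⁻¹ ∈ U} ∈ 𝓝 (1 : Inn G) := by
    intro C hC U hU
    rw [hn', ← Filter.le_principal_iff]
    exact iInf_le_of_le C (iInf_le_of_le hC (iInf_le_of_le U (iInf_le_of_le hU le_rfl)))
  refine ⟨?_, ?_, ?_⟩
  · apply IsTopologicalGroup.t2Space_of_one_sep
    intro f hf
    have h1 : ∃ g : G, (f : MulAut G) g ≠ g := by
      by_contra hcon
      push Not at hcon
      apply hf
      apply Subtype.ext
      ext g
      simpa using hcon g
    obtain ⟨g, hg⟩ := h1
    refine ⟨_, hmem {g} isCompact_singleton ({(f : MulAut G) g * g⁻¹}ᶜ) ?_, ?_⟩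
    · apply isOpen_compl_singleton.mem_nhds
      rw [Set.mem_compl_iff, Set.mem_singleton_iff]
      intro h
      exact hg (mul_inv_eq_one.mp h.symm)
    · intro h
      exact (h g rfl).1 rfl
  · have hc1 : (𝓝 (1 : Inn G)).IsCountablyGenerated := by
      obtain ⟨x, hx⟩ := (𝓝 (1 : G)).exists_antitone_basis
      let K : CompactExhaustion G := CompactExhaustion.choice G
      have h1 : 𝓝 (1 : Inn G) = ⨅ n : ℕ, ⨅ m : ℕ,
          𝓟 {f : Inn G | ∀ g ∈ K n, (f : MulAut G) g * g⁻¹ ∈ x m ∧
            ((f⁻¹ : Inn G) : MulAut G) g * g⁻¹ ∈ x m} := by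
        apply le_antisymm
        · refine le_iInf fun n => le_iInf fun m => ?_
          rw [Filter.le_principal_iff]
          exact hmem (K n) (K.isCompact n) (x m) (hx.mem m)
        · rw [hn']
          refine le_iInf fun C => le_iInf fun hC => le_iInf fun U => le_iInf fun hU => ?_
          obtain ⟨n, hn1⟩ := K.exists_superset_of_isCompact hC
          obtain ⟨m, hm1⟩ := hx.mem_iff.mp hU
          refine iInf_le_of_le n (iInf_le_of_le m ?_)
          rw [Filter.principal_mono]
          intro f hf g hg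
          exact ⟨hm1 (hf g (hn1 hg)).1, hm1 (hf g (hn1 hg)).2⟩
      rw [h1]
      infer_instance
    refine ⟨fun f => ?_⟩
    rw [← map_mul_left_nhds_one f]
    infer_instance
  · let κ : G →* Inn G := (MulAut.conj : G →* MulAut G).rangeRestrict
    have hκ1 : ∀ x g : G, ((κ x : Inn G) : MulAut G) g = x * g * x⁻¹ := fun x g => rfl
    have hκ2 : ∀ x g : G, (((κ x)⁻¹ : Inn G) : MulAut G) g = x⁻¹ * g * x := by
      intro x g
      rw [← map_inv, hκ1, inv_inv]
    have hcont : Continuous κ := by
      apply continuous_of_continuousAt_one κ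
      rw [ContinuousAt, map_one, hn']
      unfold birk
      simp only [tendsto_iInf, tendsto_principal]
      intro C hC U hU
      apply IsCompact.eventually_forall_of_forall_eventually hC
      intro c hc
      simp only [hκ1, hκ2]
      have h1 : Tendsto (fun z : G × G => z.1 * z.2 * z.1⁻¹ * z.2⁻¹) (𝓝 (1, c)) (𝓝 1) := by
        have h2 : Continuous (fun z : G × G => z.1 * z.2 * z.1⁻¹ * z.2⁻¹) := by fun_prop
        have h3 := h2.tendsto (1, c)
        simpa using h3
      have h2 : Tendsto (fun z : G × G => z.1⁻¹ * z.2 * z.1 * z.2⁻¹) (𝓝 (1, c)) (𝓝 1) := by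
        have h2 : Continuous (fun z : G × G => z.1⁻¹ * z.2 * z.1 * z.2⁻¹) := by fun_prop
        have h3 := h2.tendsto (1, c)
        simpa using h3
      exact (h1.eventually hU).and (h2.eventually hU)
    have hsurj : Function.Surjective κ := MonoidHom.rangeRestrict_surjective _
    have h1 : IsSigmaCompact (Set.univ : Set (Inn G)) := by
      have h2 : IsSigmaCompact (κ '' (Set.univ : Set G)) := isSigmaCompact_univ.image hcont
      rwa [Set.image_univ_of_surjective hsurj] at h2
    exact isSigmaCompact_univ_iff.mp h1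


end Pool.Agent.N850.UMINN
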